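import Pool.Agent.Lib.helper21.ProdInter

namespace Pool.Agent.Results.MP_1fd3e3_co.UnionQ

open Pool.Agent.Lib.Helper21.ProdInter

universe u v

theorem result (Q : Type v) [Infinite Q] (X Y : Set ℕ+) (hX : X ∈ HQ.{u} Q)
    (_hY : Y ∈ HQ.{u} Q) : X ∪ Y ∈ HQ.{u} Q := by
  obtain ⟨S, _, A, -, rfl⟩ := hX
  exact mem_HQ Q _ (Or.inl (one_mem_H A))

end Pool.Agent.Results.MP_1fd3e3_co.UnionQ
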