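import Pool.Agent.Lib.helper21.ProdInter

namespace Pool.Agent.Results.MP_1fd3e3_co.UnionStar

open Pool.Agent.Lib.Helper21.ProdInter

universe u

theorem result (X Y : Set ℕ+) (hX : X ∈ HStar.{u}) (_hY : Y ∈ HStar.{u}) :
    X ∪ Y ∈ HStar.{u} := by
  obtain ⟨S, _, A, -, rfl⟩ := hX
  exact mem_HStar _ (Or.inl (one_mem_H A))

end Pool.Agent.Results.MP_1fd3e3_co.UnionStar
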